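import Pool.Agent.N789.Kl.Count

/-!
# Gluing two polyominoes in many ways

For every `n`, `√n * t n ^ 2 ≤ 4 * t (2 n + 1)`: slide a polyomino towards another one in the
horizontal direction, for each relative vertical position; the two touch through one cell, which
is the only cell whose removal leaves two parts of `n` cells.
-/

set_option autoImplicit false

namespace Pool.Agent.N721.Poly

open Pool.Agent.N789.Kl

/-- A connected set inside two separated sets lies in one of them. -/
theorem conn_sep {C A B : Finset Cell} (hC : Conn C) (hsub : C ⊆ A ∪ B)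
    (hadj : ∀ a ∈ A, ∀ b ∈ B, ¬ Adj a b) : C ⊆ A ∨ C ⊆ B := by
  classical
  by_contra hcon
  push Not at hcon
  obtain ⟨h1, h2⟩ := hcon
  rw [Finset.not_subset] at h1 h2
  obtain ⟨x, hx, hxA⟩ := h1
  obtain ⟨y, hy, hyB⟩ := h2
  have hyA : y ∈ A := (Finset.mem_union.1 (hsub hy)).resolve_right hyB
  obtain ⟨a, ha, b, hb, hab⟩ := exists_adj_cut (R := C ∩ A) hC Finset.inter_subset_left
    ⟨y, Finset.mem_inter.2 ⟨hy, hyA⟩⟩ (fun h => hxA (Finset.mem_inter.1 (h ▸ hx)).2)
  rw [Finset.mem_sdiff, Finset.mem_inter] at hb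
  have hbA : b ∉ A := fun h => hb.2 ⟨hb.1, h⟩
  have hbB : b ∈ B := (Finset.mem_union.1 (hsub hb.1)).resolve_left hbA
  exact hadj a (Finset.mem_inter.1 ha).2 b hbB hab

theorem conn_single (c : Cell) : Conn {c} := by
  refine conn_of_root (r := c) (Finset.mem_singleton_self c) ?_
  intro b hb
  rw [Finset.mem_singleton] at hb
  subst hb
  exact Relation.ReflTransGen.refl

/-- `A` and `B` are joined by the cell `c` only -/
structure Joint (A B : Finset Cell) (c : Cell) : Prop where
  disj : Disjoint A B
  sep : ∀ a ∈ A, ∀ b ∈ B, ¬ Adj a b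
  cA : c ∉ A
  cB : c ∉ B
  adjA : ∃ a ∈ A, Adj a c
  adjB : ∃ b ∈ B, Adj b c

theorem Joint.symm {A B : Finset Cell} {c : Cell} (h : Joint A B c) : Joint B A c :=
  ⟨h.disj.symm, fun b hb a ha hab => h.sep a ha b hb hab.symm, h.cB, h.cA, h.adjB, h.adjA⟩

theorem Joint.shift {A B : Finset Cell} {c : Cell} (h : Joint A B c) (v : Cell) :
    Joint (shift v A) (shift v B) (c + v) := by
  refine ⟨?_, ?_, ?_, ?_, ?_, ?_⟩
  · rw [Finset.disjoint_left]
    intro x hx hx'
    rw [mem_shift] at hx hx'
    exact (Finset.disjoint_left.1 h.disj) hx hx'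
  · intro a ha b hb hab
    rw [mem_shift] at ha hb
    have := adj_add (v := -v) hab
    rw [← sub_eq_add_neg, ← sub_eq_add_neg] at this
    exact h.sep _ ha _ hb this
  · rw [mem_shift, add_sub_cancel_right]
    exact h.cA
  · rw [mem_shift, add_sub_cancel_right]
    exact h.cB
  · obtain ⟨a, ha, hac⟩ := h.adjA
    exact ⟨a + v, mem_shift.2 (by simpa using ha), adj_add hac⟩
  · obtain ⟨a, ha, hac⟩ := h.adjB
    exact ⟨a + v, mem_shift.2 (by simpa using ha), adj_add hac⟩

theorem Joint.conn {A B : Finset Cell} {c : Cell} (h : Joint A B c) (hA : Conn A) (hB : Conn B) :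
    Conn (insert c (A ∪ B)) := by
  obtain ⟨a, ha, hac⟩ := h.adjA
  obtain ⟨b, hb, hbc⟩ := h.adjB
  have h1 : Conn (A ∪ {c}) := conn_union hA (conn_single c) ha (Finset.mem_singleton_self c) hac
  have h2 : Conn ((A ∪ {c}) ∪ B) := conn_union h1 hB
    (Finset.mem_union_right _ (Finset.mem_singleton_self c)) hb hbc.symm
  convert h2 using 1
  ext x
  simp only [Finset.mem_insert, Finset.mem_union, Finset.mem_singleton]
  tauto

theorem Joint.card {A B : Finset Cell} {c : Cell} (h : Joint A B c) :
    (insert c (A ∪ B)).card = A.card + B.card + 1 := by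
  rw [Finset.card_insert_of_notMem (by rw [Finset.mem_union]; exact fun h' => h'.elim h.cA h.cB),
    Finset.card_union_of_disjoint h.disj]

/-- the joint cell is unique (one half of the argument) -/
theorem joint_aux {A B A' B' : Finset Cell} {c c' : Cell} {n : ℕ} (h : Joint A B c)
    (h' : Joint A' B' c') (hB : Conn B)
    (nB : B.card = n) (nA' : A'.card = n) (nB' : B'.card = n)
    (hS : insert c (A ∪ B) = insert c' (A' ∪ B')) (hc : c' ∈ A) : False := by
  obtain ⟨b, hb, hbc⟩ := h.adjB
  have h1 : Conn ({c} ∪ B) := conn_union (conn_single c) hB (Finset.mem_singleton_self c) hb hbc.symm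
  have h2 : ({c} ∪ B) ⊆ A' ∪ B' := by
    intro x hx
    have hx' : x ∈ insert c' (A' ∪ B') := by
      rw [← hS]
      rcases Finset.mem_union.1 hx with h3 | h3
      · rw [Finset.mem_singleton] at h3
        subst h3
        exact Finset.mem_insert_self _ _
      · exact Finset.mem_insert_of_mem (Finset.mem_union_right _ h3)
    refine (Finset.mem_insert.1 hx').resolve_left ?_
    rintro rfl
    rcases Finset.mem_union.1 hx with h3 | h3
    · rw [Finset.mem_singleton] at h3
      subst h3
      exact h.cA hc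
    · exact (Finset.disjoint_left.1 h.disj) hc h3
  have h3 : ({c} ∪ B).card = n + 1 := by
    rw [Finset.card_union_of_disjoint (Finset.disjoint_singleton_left.2 h.cB),
      Finset.card_singleton, nB]
    omega
  rcases conn_sep h1 h2 h'.sep with h4 | h4
  · have := Finset.card_le_card h4
    omega
  · have := Finset.card_le_card h4
    omega

theorem joint_unique {A B A' B' : Finset Cell} {c c' : Cell} {n : ℕ} (h : Joint A B c)
    (h' : Joint A' B' c') (hA : Conn A) (hB : Conn B)
    (nA : A.card = n) (nB : B.card = n) (nA' : A'.card = n) (nB' : B'.card = n)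
    (hS : insert c (A ∪ B) = insert c' (A' ∪ B')) :
    (A' = A ∧ B' = B) ∨ (A' = B ∧ B' = A) := by
  have hcc : c' = c := by
    have h1 : c' ∈ insert c (A ∪ B) := by
      rw [hS]
      exact Finset.mem_insert_self _ _
    rcases Finset.mem_insert.1 h1 with h2 | h2
    · exact h2
    · exfalso
      rcases Finset.mem_union.1 h2 with h3 | h3
      · exact joint_aux h h' hB nB nA' nB' hS h3
      · exact joint_aux h.symm h' hA nA nA' nB' (by rw [← hS, Finset.union_comm]) h3
  subst hcc
  have hU : A ∪ B = A' ∪ B' := by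
    have h1 : (insert c' (A ∪ B)).erase c' = (insert c' (A' ∪ B')).erase c' := by rw [hS]
    rwa [Finset.erase_insert (by rw [Finset.mem_union]; exact fun h2 => h2.elim h.cA h.cB),
      Finset.erase_insert (by rw [Finset.mem_union]; exact fun h2 => h2.elim h'.cA h'.cB)] at h1
  have hB' : B = (A ∪ B) \ A := by
    rw [Finset.union_sdiff_left, Finset.sdiff_eq_self_of_disjoint h.disj.symm]
  rcases conn_sep hA (hU ▸ Finset.subset_union_left) h'.sep with h1 | h1
  · left
    have h2 : A = A' := Finset.eq_of_subset_of_card_le h1 (by omega)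
    refine ⟨h2.symm, ?_⟩
    rw [hB', hU, h2, Finset.union_sdiff_left, Finset.sdiff_eq_self_of_disjoint h'.disj.symm]
  · right
    have h2 : A = B' := Finset.eq_of_subset_of_card_le h1 (by omega)
    refine ⟨?_, h2.symm⟩
    rw [hB', hU, h2, Finset.union_sdiff_right, Finset.sdiff_eq_self_of_disjoint h'.disj]

/-- **Sliding.** If some rows of `P` and of `Q` moved up by `v` agree, then some translate of `Q`
by `(k, v)` is joined to `P` by one cell. -/
theorem exists_joint {P Q : Finset Cell} {v : ℤ}
    (h : ∃ a ∈ P, ∃ b ∈ Q, a.2 = b.2 + v) : ∃ (k : ℤ) (c : Cell), Joint P (shift (k, v) Q) c := by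
  classical
  set touch : ℤ → Prop := fun k => ∃ a ∈ P, ∃ b ∈ Q, b + (k, v) = a ∨ Adj a (b + (k, v)) with ht
  have hne : ∃ k, touch k := by
    obtain ⟨a, ha, b, hb, hab⟩ := h
    refine ⟨a.1 - b.1, a, ha, b, hb, Or.inl ?_⟩
    ext
    · simp
    · simp [hab]
  have hPQ : P.Nonempty ∧ Q.Nonempty := by
    obtain ⟨a, ha, b, hb, _⟩ := h
    exact ⟨⟨a, ha⟩, ⟨b, hb⟩⟩
  obtain ⟨x, hx, hxmax⟩ := Finset.exists_max_image P (fun c => c.1) hPQ.1
  obtain ⟨y, hy, hymin⟩ := Finset.exists_min_image Q (fun c => c.1) hPQ.2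
  obtain ⟨k, ⟨a, ha, b, hb, hab⟩, hmax⟩ := Int.exists_greatest_of_bdd (P := touch)
    ⟨x.1 - y.1 + 1, by
      rintro k ⟨a, ha, b, hb, hab⟩
      have h1 : a.1 ≤ x.1 := hxmax a ha
      have h2 : y.1 ≤ b.1 := hymin b hb
      rcases hab with hab | hab
      · have := congrArg Prod.fst hab
        simp only [Prod.fst_add] at this
        omega
      · simp only [Adj, Prod.fst_add, Prod.snd_add] at hab
        omega⟩ hne
  have hnot : ¬ touch (k + 1) := fun h' => by
    have := hmax _ h'
    omega
  have hn : ∀ a ∈ P, ∀ b ∈ Q, b + (k + 1, v) ≠ a ∧ ¬ Adj a (b + (k + 1, v)) := by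
    intro a ha b hb
    constructor
    · intro h'
      exact hnot ⟨a, ha, b, hb, Or.inl h'⟩
    · intro h'
      exact hnot ⟨a, ha, b, hb, Or.inr h'⟩
  have hsh : ∀ z ∈ shift (k + 1, v) Q, ∃ b ∈ Q, z = b + (k + 1, v) := by
    intro z hz
    rw [mem_shift] at hz
    exact ⟨_, hz, by simp⟩
  have hstep : Adj (b + (k, v)) (b + (k + 1, v)) := by
    refine Or.inr ⟨rfl, Or.inr ?_⟩
    simp only [Prod.fst_add]
    ring
  have hac : Adj a (b + (k, v)) := by
    rcases hab with hab | hab
    · exfalso
      rw [hab] at hstep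
      exact (hn a ha b hb).2 hstep
    · exact hab
  refine ⟨k + 1, b + (k, v), ?_, ?_, ?_, ?_, ?_, ?_⟩
  · rw [Finset.disjoint_left]
    intro z hz hz'
    obtain ⟨b', hb', rfl⟩ := hsh z hz'
    exact (hn _ hz b' hb').1 rfl
  · intro a' ha' z hz
    obtain ⟨b', hb', rfl⟩ := hsh z hz
    exact (hn a' ha' b' hb').2
  · intro hc
    exact (hn _ hc b hb).2 hstep
  · intro hc
    obtain ⟨b', hb', h'⟩ := hsh _ hc
    rw [h'] at hac
    exact (hn a ha b' hb').2 hac
  · exact ⟨a, ha, hac⟩
  · refine ⟨b + (k + 1, v), mem_shift.2 (by simpa using hb), hstep.symm⟩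

/-! ### canonical representatives -/

theorem Tm_shift {n : ℕ} {P Q : Finset Cell} {v : Cell} (hP : P ∈ Tm n) (hQ : Q ∈ Tm n)
    (h : Q = shift v P) : v = 0 ∧ P = Q := by
  refine ⟨?_, Tm_eq_of_shift hP hQ h⟩
  have h1 := (mem_Tm.1 hP)
  have h2 := (mem_Tm.1 hQ)
  have h3 : v ∈ Q := by
    rw [h, mem_shift, sub_self]
    exact h1.2.2.1
  have h4 : -v ∈ P := by
    have : (0 : Cell) ∈ shift v P := h ▸ h2.2.2.1
    rw [mem_shift, zero_sub] at this
    exact this
  have h5 := h2.2.2.2 _ h3
  have h6 := h1.2.2.2 _ h4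
  rw [lle_iff] at h5 h6
  simp only [Prod.fst_zero, Prod.snd_zero, Prod.fst_neg, Prod.snd_neg] at h5 h6
  ext
  · simp only [Prod.fst_zero]
    omega
  · simp only [Prod.snd_zero]
    omega

/-- the rows of a set of cells -/
def rows (P : Finset Cell) : Finset ℤ := P.image Prod.snd

/-- the columns of a set of cells -/
def cols (P : Finset Cell) : Finset ℤ := P.image Prod.fst

theorem card_le_rows_cols (P : Finset Cell) : P.card ≤ (rows P).card * (cols P).card := by
  have : P ⊆ cols P ×ˢ rows P := by
    intro x hx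
    rw [Finset.mem_product]
    exact ⟨Finset.mem_image_of_mem _ hx, Finset.mem_image_of_mem _ hx⟩
  have := Finset.card_le_card this
  rw [Finset.card_product] at this
  linarith [mul_comm (rows P).card (cols P).card]

theorem card_rows_shift (v : Cell) (P : Finset Cell) : (rows (shift v P)).card = (rows P).card := by
  have : rows (shift v P) = (rows P).map (Equiv.addRight v.2).toEmbedding := by
    ext y
    simp only [rows, Finset.mem_image, Finset.mem_map, Equiv.coe_toEmbedding, Equiv.coe_addRight,
      mem_shift]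
    constructor
    · rintro ⟨x, hx, rfl⟩
      exact ⟨x.2 - v.2, ⟨_, hx, rfl⟩, by simp⟩
    · rintro ⟨y, ⟨x, hx, rfl⟩, rfl⟩
      exact ⟨x + v, by simpa using hx, rfl⟩
  rw [this, Finset.card_map]

/-- transposition -/
def tr (P : Finset Cell) : Finset Cell := P.map (Equiv.prodComm ℤ ℤ).toEmbedding

theorem mem_tr {P : Finset Cell} {x : Cell} : x ∈ tr P ↔ x.swap ∈ P := by
  simp only [tr, Finset.mem_map, Equiv.coe_toEmbedding, Equiv.prodComm_apply]
  constructor
  · rintro ⟨y, hy, rfl⟩
    simpa using hy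
  · intro h
    exact ⟨x.swap, h, by simp⟩

theorem card_tr (P : Finset Cell) : (tr P).card = P.card := by simp [tr]

theorem tr_tr (P : Finset Cell) : tr (tr P) = P := by
  ext x
  simp [mem_tr]

theorem rows_tr (P : Finset Cell) : rows (tr P) = cols P := by
  ext y
  simp only [rows, cols, Finset.mem_image, mem_tr]
  constructor
  · rintro ⟨x, hx, rfl⟩
    exact ⟨x.swap, hx, rfl⟩
  · rintro ⟨x, hx, rfl⟩
    exact ⟨x.swap, by simpa using hx, rfl⟩

theorem adj_swap {x y : Cell} (h : Adj x y) : Adj x.swap y.swap := by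
  unfold Adj at *
  simp only [Prod.fst_swap, Prod.snd_swap]
  tauto

theorem conn_tr {P : Finset Cell} (h : Conn P) : Conn (tr P) := by
  obtain ⟨r, hr⟩ := h.1
  refine conn_of_root (r := r.swap) (mem_tr.2 (by simpa using hr)) ?_
  intro b hb
  rw [mem_tr] at hb
  have key : ∀ z, Relation.ReflTransGen (fun c d => Adj c d ∧ c ∈ P ∧ d ∈ P) r z →
      Relation.ReflTransGen (fun c d => Adj c d ∧ c ∈ tr P ∧ d ∈ tr P) r.swap z.swap := by
    intro z h
    induction h with
    | refl => exact Relation.ReflTransGen.refl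
    | @tail c d _ hcd ih =>
      refine ih.tail ⟨adj_swap hcd.1, mem_tr.2 ?_, mem_tr.2 ?_⟩
      · simpa using hcd.2.1
      · simpa using hcd.2.2
  have := key _ (h.2 r hr _ hb)
  simpa using this

theorem tr_shift (v : Cell) (P : Finset Cell) : tr (shift v P) = shift v.swap (tr P) := by
  ext x
  simp only [mem_tr, mem_shift]
  rfl

open Classical in
/-- the polyominoes with many rows -/
noncomputable def Big (n s : ℕ) : Finset (Finset Cell) := (Tm n).filter (fun P => s ≤ (rows P).card)

open Classical in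
theorem half_big {n s : ℕ} (hs : s * s ≤ n) : t n ≤ 2 * (Big n s).card := by
  rw [t_eq]
  have hc : ∀ P ∈ Tm n, ∃ v, shift v (tr P) ∈ Tm n := by
    intro P hP
    have h1 := mem_Tm.1 hP
    have := exists_canon (conn_tr h1.2.1)
    rwa [card_tr, h1.1] at this
  choose! f hf using hc
  have h1 : ((Tm n).filter (fun P => s ≤ (cols P).card)).card ≤ (Big n s).card := by
    apply Finset.card_le_card_of_injOn (fun P => shift (f P) (tr P))
    · intro P hP
      rw [Finset.coe_filter] at hP
      have hP' : P ∈ Tm n ∧ s ≤ (cols P).card := hP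
      rw [Finset.mem_coe, Big, Finset.mem_filter]
      refine ⟨hf P hP'.1, ?_⟩
      rw [card_rows_shift, rows_tr]
      exact hP'.2
    · intro P hP Q hQ h
      rw [Finset.coe_filter] at hP hQ
      have hP' : P ∈ Tm n ∧ s ≤ (cols P).card := hP
      have hQ' : Q ∈ Tm n ∧ s ≤ (cols Q).card := hQ
      simp only at h
      have h2 := congrArg tr h
      rw [tr_shift, tr_shift, tr_tr, tr_tr] at h2
      have hQP : Q = shift ((f P).swap - (f Q).swap) P := by
        have : shift (-(f Q).swap) (shift (f P).swap P) =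
            shift (-(f Q).swap) (shift (f Q).swap Q) := by rw [h2]
        rw [shift_shift, shift_shift, show (f Q).swap + -(f Q).swap = 0 by abel, shift_zero] at this
        rw [sub_eq_add_neg]
        exact this.symm
      exact Tm_eq_of_shift hP'.1 hQ'.1 hQP
  have h2 : Tm n ⊆ Big n s ∪ (Tm n).filter (fun P => s ≤ (cols P).card) := by
    intro P hP
    rw [Finset.mem_union, Big, Finset.mem_filter, Finset.mem_filter]
    by_contra hcon
    push Not at hcon
    have h3 := hcon.1 hP
    have h4 := hcon.2 hP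
    have h5 := card_le_rows_cols P
    rw [(mem_Tm.1 hP).1] at h5
    have h6 : (rows P).card * (cols P).card < s * s := by
      rcases Nat.eq_zero_or_pos (cols P).card with h0 | h0
      · rw [h0, Nat.mul_zero]
        exact Nat.mul_pos (by omega) (by omega)
      · calc (rows P).card * (cols P).card < s * (cols P).card := Nat.mul_lt_mul_of_pos_right h3 h0
          _ ≤ s * s := Nat.mul_le_mul_left _ h4.le
    omega
  have h3 := Finset.card_le_card h2
  have h4 := Finset.card_union_le (Big n s) ((Tm n).filter (fun P => s ≤ (cols P).card))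
  omega

open Classical in
/-- the data for gluing -/
noncomputable def Data (n s : ℕ) : Finset (Σ _ : Finset Cell, Σ _ : Finset Cell, ℤ) :=
  (Big n s).sigma (fun P => (Tm n).sigma (fun _ => rows P))

theorem card_Data (n s : ℕ) : s * (Big n s).card * t n ≤ (Data n s).card := by
  classical
  rw [Data, Finset.card_sigma]
  have h1 : ∀ P ∈ Big n s, s * t n ≤ ((Tm n).sigma (fun _ => rows P)).card := by
    intro P hP
    rw [Finset.card_sigma, Finset.sum_const, smul_eq_mul, t_eq, Nat.mul_comm]
    exact Nat.mul_le_mul_left _ (Finset.mem_filter.1 hP).2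
  have h2 := Finset.card_nsmul_le_sum (Big n s) (fun P => ((Tm n).sigma (fun _ => rows P)).card)
    (s * t n) h1
  rw [smul_eq_mul] at h2
  calc s * (Big n s).card * t n = (Big n s).card * (s * t n) := by ring
    _ ≤ _ := h2

/-- **The gluing inequality.** -/
theorem glue {n s : ℕ} (hs : s * s ≤ n) : s * t n ^ 2 ≤ 4 * t (2 * n + 1) := by
  classical
  have hex : ∀ x ∈ Data n s, ∃ (k : ℤ) (c : Cell), Joint x.1 (shift (k, x.2.2) x.2.1) c := by
    intro x hx
    rw [Data, Finset.mem_sigma, Finset.mem_sigma] at hx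
    obtain ⟨hP, hQ, hv⟩ := hx
    apply exists_joint
    rw [rows, Finset.mem_image] at hv
    obtain ⟨a, ha, hav⟩ := hv
    exact ⟨a, ha, 0, (mem_Tm.1 hQ).2.2.1, by simp [hav]⟩
  choose! k c hkc using hex
  set U : (Σ _ : Finset Cell, Σ _ : Finset Cell, ℤ) → Finset Cell :=
    fun x => insert (c x) (x.1 ∪ shift (k x, x.2.2) x.2.1) with hU
  have hmem : ∀ x ∈ Data n s, x.1 ∈ Tm n ∧ x.2.1 ∈ Tm n := by
    intro x hx
    rw [Data, Finset.mem_sigma, Finset.mem_sigma] at hx
    exact ⟨(Finset.mem_filter.1 hx.1).1, hx.2.1⟩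
  have hUc : ∀ x ∈ Data n s, ∃ v, shift v (U x) ∈ Tm (2 * n + 1) := by
    intro x hx
    obtain ⟨h1, h2⟩ := hmem x hx
    have h3 := exists_canon ((hkc x hx).conn (mem_Tm.1 h1).2.1 (conn_shift (mem_Tm.1 h2).2.1 _))
    rw [(hkc x hx).card, card_shift, (mem_Tm.1 h1).1, (mem_Tm.1 h2).1] at h3
    rwa [show n + n + 1 = 2 * n + 1 by ring] at h3
  choose! g hg using hUc
  have hfib : ∀ S ∈ Tm (2 * n + 1),
      ((Data n s).filter (fun x => shift (g x) (U x) = S)).card ≤ 2 := by
    intro S _
    by_cases hne : ((Data n s).filter (fun x => shift (g x) (U x) = S)).Nonempty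
    swap
    · rw [Finset.not_nonempty_iff_eq_empty] at hne
      rw [hne]
      simp
    obtain ⟨x, hx⟩ := hne
    rw [Finset.mem_filter] at hx
    have hsub : (Data n s).filter (fun x => shift (g x) (U x) = S) ⊆
        {x, ⟨x.2.1, ⟨x.1, -x.2.2⟩⟩} := by
      intro y hy
      rw [Finset.mem_filter] at hy
      obtain ⟨hx1, hx2⟩ := hx
      obtain ⟨hy1, hy2⟩ := hy
      obtain ⟨mx1, mx2⟩ := hmem x hx1
      obtain ⟨my1, my2⟩ := hmem y hy1
      set w : Cell := g x - g y with hw
      have hUU : U y = shift w (U x) := by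
        have : shift (-(g y)) (shift (g y) (U y)) = shift (-(g y)) (shift (g x) (U x)) := by
          rw [hx2, hy2]
        rw [shift_shift, shift_shift, show g y + -(g y) = 0 by abel, shift_zero] at this
        rw [hw, sub_eq_add_neg]
        exact this
      have hS : insert (c x + w) (shift w x.1 ∪ shift w (shift (k x, x.2.2) x.2.1)) =
          insert (c y) (y.1 ∪ shift (k y, y.2.2) y.2.1) := by
        have h1 : shift w (U x) =
            insert (c x + w) (shift w x.1 ∪ shift w (shift (k x, x.2.2) x.2.1)) := by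
          rw [← shift_union]
          ext z
          simp only [hU, mem_shift, Finset.mem_insert]
          rw [sub_eq_iff_eq_add]
        rw [← h1, ← hUU]
      have huniq := joint_unique ((hkc x hx1).shift w) (hkc y hy1)
        (conn_shift (mem_Tm.1 mx1).2.1 _) (conn_shift (conn_shift (mem_Tm.1 mx2).2.1 _) _)
        (by rw [card_shift]; exact (mem_Tm.1 mx1).1)
        (by rw [card_shift, card_shift]; exact (mem_Tm.1 mx2).1)
        (mem_Tm.1 my1).1 (by rw [card_shift]; exact (mem_Tm.1 my2).1) hS
      rw [Finset.mem_insert, Finset.mem_singleton]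
      have hback : ∀ (v v' : Cell) (A B : Finset Cell), shift v A = shift v' B →
          A = shift (v' - v) B := by
        intro v v' A B h
        have : shift (-v) (shift v A) = shift (-v) (shift v' B) := by rw [h]
        rw [shift_shift, shift_shift, show v + -v = 0 by abel, shift_zero] at this
        rw [sub_eq_add_neg]
        exact this
      rcases huniq with ⟨e1, e2⟩ | ⟨e1, e2⟩
      · left
        obtain ⟨w0, hP⟩ := Tm_shift mx1 my1 e1
        rw [shift_shift] at e2
        have e3 := hback _ _ _ _ e2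
        obtain ⟨w1, hQ⟩ := Tm_shift mx2 my2 e3
        rw [w0, add_zero, sub_eq_zero] at w1
        have e4 := congrArg Prod.snd w1
        simp only at e4
        obtain ⟨y1, y2, y3⟩ := y
        obtain ⟨x1, x2, x3⟩ := x
        simp only at hP hQ e4
        subst hP hQ e4
        rfl
      · right
        rw [shift_shift] at e1
        obtain ⟨w0, hP⟩ := Tm_shift mx2 my1 e1
        have e3 := hback _ _ _ _ e2
        obtain ⟨w1, hQ⟩ := Tm_shift mx1 my2 e3
        have e4 := congrArg Prod.snd w1
        have e5 := congrArg Prod.snd w0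
        simp only [Prod.snd_add, Prod.snd_sub, Prod.snd_zero] at e4 e5
        have e6 : y.2.2 = -x.2.2 := by omega
        obtain ⟨y1, y2, y3⟩ := y
        obtain ⟨x1, x2, x3⟩ := x
        simp only at hP hQ e6
        subst hP hQ e6
        rfl
    exact le_trans (Finset.card_le_card hsub) Finset.card_le_two
  have h1 := Finset.card_le_mul_card_image_of_maps_to (f := fun x => shift (g x) (U x))
    (s := Data n s) (t := Tm (2 * n + 1)) (fun x hx => hg x hx) 2 hfib
  have h2 := card_Data n s
  have h3 := half_big hs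
  rw [← t_eq] at h1
  have h4 : s * t n * t n ≤ 2 * (s * (Big n s).card * t n) := by
    calc s * t n * t n ≤ s * (2 * (Big n s).card) * t n :=
          Nat.mul_le_mul_right _ (Nat.mul_le_mul_left _ h3)
      _ = 2 * (s * (Big n s).card * t n) := by ring
  calc s * t n ^ 2 = s * t n * t n := by ring
    _ ≤ 2 * (s * (Big n s).card * t n) := h4
    _ ≤ 2 * (Data n s).card := Nat.mul_le_mul_left _ h2
    _ ≤ 2 * (2 * t (2 * n + 1)) := Nat.mul_le_mul_left _ h1
    _ = 4 * t (2 * n + 1) := by ring

end Pool.Agent.N721.Poly
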