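import Pool.Agent.N721.Poly.Glue
import Pool.Agent.N789.Kl.Growth

/-!
# The generating function of fixed polyominoes is not rational

`t n / lam ^ n → 0` by the gluing inequality, so `(1 / lam - |z|) T(z) → 0` at the circle of
convergence, which excludes poles on it.
-/

set_option autoImplicit false

namespace Pool.Agent.N721.Poly

open Pool.Agent.N789.Kl Filter Topology Polynomial

/-- `t n / lam ^ n → 0` -/
theorem tendsto_c : Tendsto (fun n : ℕ => (t n : ℝ) / lam ^ n) atTop (𝓝 0) := by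
  have hl := lam_pos
  have h1 : ∀ n : ℕ, 1 ≤ n → ((t n : ℝ) / lam ^ n) ^ 2 ≤ 4 * lam / (Nat.sqrt n : ℝ) := by
    intro n hn
    have hs : 0 < Nat.sqrt n := Nat.sqrt_pos.2 hn
    have hs' : (0 : ℝ) < (Nat.sqrt n : ℝ) := by exact_mod_cast hs
    have h2 := glue (Nat.sqrt_le n)
    have h3 := t_le_lam (2 * n + 1)
    have h4 : (Nat.sqrt n : ℝ) * (t n : ℝ) ^ 2 ≤ 4 * (t (2 * n + 1) : ℝ) := by exact_mod_cast h2
    rw [div_pow, div_le_div_iff₀ (by positivity) hs']
    calc (t n : ℝ) ^ 2 * (Nat.sqrt n : ℝ) = (Nat.sqrt n : ℝ) * (t n : ℝ) ^ 2 := by ring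
      _ ≤ 4 * (t (2 * n + 1) : ℝ) := h4
      _ ≤ 4 * lam ^ (2 * n + 1) := by linarith
      _ = 4 * lam * (lam ^ n) ^ 2 := by ring
  have h2 : Tendsto (fun n : ℕ => 4 * lam / (Nat.sqrt n : ℝ)) atTop (𝓝 0) := by
    have h3 : Tendsto (fun n : ℕ => (Nat.sqrt n : ℝ)) atTop atTop := by
      refine tendsto_natCast_atTop_atTop.comp ?_
      refine tendsto_atTop_atTop.2 fun b => ⟨b * b, fun a ha => Nat.le_sqrt.2 ha⟩
    exact h3.const_div_atTop _
  have h3 : Tendsto (fun n : ℕ => ((t n : ℝ) / lam ^ n) ^ 2) atTop (𝓝 0) := by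
    refine tendsto_of_tendsto_of_tendsto_of_le_of_le' tendsto_const_nhds h2
      (Eventually.of_forall fun n => sq_nonneg _) ?_
    filter_upwards [eventually_ge_atTop 1] with n hn using h1 n hn
  have h4 := h3.sqrt
  rw [Real.sqrt_zero] at h4
  refine h4.congr fun n => ?_
  rw [Real.sqrt_sq (by positivity)]

/-- Abel: if `c n → 0` then `(1 - x) * ∑ c n x ^ n → 0` as `x → 1`. -/
theorem abel_lim {c : ℕ → ℝ} (h0 : ∀ n, 0 ≤ c n) (hc : Tendsto c atTop (𝓝 0)) {ε : ℝ} (hε : 0 < ε) :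
    ∀ᶠ x : ℝ in 𝓝[<] 1, (1 - x) * ∑' n, c n * x ^ n ≤ ε := by
  have h1 : ∀ᶠ n in atTop, c n < ε / 2 := hc.eventually (gt_mem_nhds (by positivity))
  obtain ⟨N, hN⟩ := eventually_atTop.1 h1
  set S : ℝ := ∑ n ∈ Finset.range N, c n with hS
  have hS0 : 0 ≤ S := Finset.sum_nonneg fun n _ => h0 n
  have h2 : ∀ᶠ x : ℝ in 𝓝[<] 1, (1 - x) * S < ε / 2 := by
    have : Tendsto (fun x : ℝ => (1 - x) * S) (𝓝[<] 1) (𝓝 ((1 - 1) * S)) :=
      (((continuous_const.sub continuous_id).mul continuous_const).tendsto 1).mono_left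
        nhdsWithin_le_nhds
    rw [sub_self, zero_mul] at this
    exact this.eventually (gt_mem_nhds (by positivity))
  have h3 : ∀ᶠ x : ℝ in 𝓝[<] 1, 0 < x :=
    eventually_nhdsWithin_of_eventually_nhds (lt_mem_nhds zero_lt_one)
  filter_upwards [h2, h3, self_mem_nhdsWithin] with x hx1 hx0 hx
  have hx : x < 1 := hx
  have hb : ∃ B, ∀ n, c n ≤ B := by
    obtain ⟨B, hB⟩ := hc.bddAbove_range
    exact ⟨B, fun n => hB ⟨n, rfl⟩⟩
  obtain ⟨B, hB⟩ := hb
  have hsum : Summable fun n => c n * x ^ n := by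
    refine Summable.of_nonneg_of_le (fun n => mul_nonneg (h0 n) (pow_nonneg hx0.le n))
      (fun n => mul_le_mul_of_nonneg_right (hB n) (pow_nonneg hx0.le n)) ?_
    exact (summable_geometric_of_lt_one hx0.le hx).mul_left B
  have hle : ∑' n, c n * x ^ n ≤ S + (ε / 2) * (1 - x)⁻¹ := by
    rw [← hsum.sum_add_tsum_nat_add N]
    refine add_le_add ?_ ?_
    · refine Finset.sum_le_sum fun n _ => ?_
      calc c n * x ^ n ≤ c n * 1 :=
            mul_le_mul_of_nonneg_left (pow_le_one₀ hx0.le hx.le) (h0 n)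
        _ = c n := mul_one _
    · rw [← tsum_geometric_of_lt_one hx0.le hx, ← tsum_mul_left]
      refine Summable.tsum_le_tsum (fun n => ?_) ((summable_nat_add_iff N).2 hsum)
        ((summable_geometric_of_lt_one hx0.le hx).mul_left _)
      refine mul_le_mul (hN _ (by omega)).le ?_ (pow_nonneg hx0.le _) (by positivity)
      rw [pow_add]
      have h6 : x ^ n * x ^ N ≤ x ^ n * 1 :=
        mul_le_mul_of_nonneg_left (pow_le_one₀ hx0.le hx.le) (pow_nonneg hx0.le _)
      rw [mul_one] at h6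
      exact h6
  have hpx : 0 < 1 - x := by linarith
  have hA : (1 - x) * ∑' n, c n * x ^ n ≤ (1 - x) * (S + (ε / 2) * (1 - x)⁻¹) :=
    mul_le_mul_of_nonneg_left hle hpx.le
  have hB : (1 - x) * (S + (ε / 2) * (1 - x)⁻¹) = (1 - x) * S + ε / 2 := by
    field_simp
  rw [hB] at hA
  linarith

/-! ### values of power series -/

/-- the value of a power series -/
noncomputable def ev (A : PowerSeries ℂ) (z : ℂ) : ℂ := ∑' n, PowerSeries.coeff n A * z ^ n

/-- absolute convergence on the circle of radius `r` -/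
def Sm (A : PowerSeries ℂ) (r : ℝ) : Prop := Summable fun n => ‖PowerSeries.coeff n A‖ * r ^ n

theorem Sm_poly (P : ℂ[X]) (r : ℝ) : Sm (P : PowerSeries ℂ) r := by
  refine summable_of_ne_finset_zero (s := P.support) ?_
  intro n hn
  rw [Polynomial.coeff_coe, Polynomial.notMem_support_iff.1 hn, norm_zero, zero_mul]

theorem ev_poly (P : ℂ[X]) (z : ℂ) : ev (P : PowerSeries ℂ) z = P.eval z := by
  rw [ev, Polynomial.eval_eq_sum, Polynomial.sum, tsum_eq_sum (s := P.support)]
  · simp [Polynomial.coeff_coe]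
  · intro n hn
    rw [Polynomial.coeff_coe, Polynomial.notMem_support_iff.1 hn, zero_mul]

theorem ev_mul {A B : PowerSeries ℂ} {z : ℂ} (hA : Sm A ‖z‖) (hB : Sm B ‖z‖) :
    ev (A * B) z = ev A z * ev B z := by
  have hA' : Summable fun n => ‖PowerSeries.coeff n A * z ^ n‖ := by
    refine hA.congr fun n => ?_
    rw [norm_mul, norm_pow]
  have hB' : Summable fun n => ‖PowerSeries.coeff n B * z ^ n‖ := by
    refine hB.congr fun n => ?_
    rw [norm_mul, norm_pow]
  rw [ev, ev, ev, tsum_mul_tsum_eq_tsum_sum_antidiagonal_of_summable_norm hA' hB']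
  refine tsum_congr fun n => ?_
  rw [PowerSeries.coeff_mul, Finset.sum_mul]
  refine Finset.sum_congr rfl fun p hp => ?_
  rw [Finset.HasAntidiagonal.mem_antidiagonal] at hp
  rw [← hp, pow_add]
  ring

/-- removing a factor `X - ζ` -/
theorem Sm_of_mul {A B : PowerSeries ℂ} {ζ : ℂ} {r : ℝ} (hr : 0 < r) (hζ : r < ‖ζ‖)
    (h : (PowerSeries.X - PowerSeries.C ζ) * A = B) (hB : Sm B r) : Sm A r := by
  have hz0 : 0 < ‖ζ‖ := hr.trans hζ
  have hco : ∀ n, PowerSeries.coeff (n + 1) B =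
      PowerSeries.coeff n A - ζ * PowerSeries.coeff (n + 1) A := by
    intro n
    rw [← h, sub_mul, map_sub, PowerSeries.coeff_succ_X_mul, PowerSeries.coeff_C_mul]
  set θ : ℝ := r / ‖ζ‖ with hθ
  have hθ1 : θ < 1 := (div_lt_one hz0).2 hζ
  have hθ0 : 0 < θ := div_pos hr hz0
  set al : ℕ → ℝ := fun n => ‖PowerSeries.coeff n A‖ * r ^ n with hal
  set be : ℕ → ℝ := fun n => ‖PowerSeries.coeff n B‖ * r ^ n with hbe
  have hal0 : ∀ n, 0 ≤ al n := fun n => mul_nonneg (norm_nonneg _) (pow_nonneg hr.le _)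
  have hbe0 : ∀ n, 0 ≤ be n := fun n => mul_nonneg (norm_nonneg _) (pow_nonneg hr.le _)
  have hstep : ∀ n, al (n + 1) ≤ θ * al n + be (n + 1) / ‖ζ‖ := by
    intro n
    have h1 : ζ * PowerSeries.coeff (n + 1) A =
        PowerSeries.coeff n A - PowerSeries.coeff (n + 1) B := by
      rw [hco]
      ring
    have h2 : ‖ζ‖ * ‖PowerSeries.coeff (n + 1) A‖ ≤
        ‖PowerSeries.coeff n A‖ + ‖PowerSeries.coeff (n + 1) B‖ := by
      rw [← norm_mul, h1]
      exact norm_sub_le _ _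
    have h3 : ‖ζ‖ * al (n + 1) ≤ r * al n + be (n + 1) := by
      simp only [hal, hbe]
      calc ‖ζ‖ * (‖PowerSeries.coeff (n + 1) A‖ * r ^ (n + 1))
          = (‖ζ‖ * ‖PowerSeries.coeff (n + 1) A‖) * r ^ (n + 1) := by ring
        _ ≤ (‖PowerSeries.coeff n A‖ + ‖PowerSeries.coeff (n + 1) B‖) * r ^ (n + 1) :=
            mul_le_mul_of_nonneg_right h2 (pow_nonneg hr.le _)
        _ = _ := by ring
    rw [hθ]
    calc al (n + 1) = (‖ζ‖ * al (n + 1)) / ‖ζ‖ := by field_simp
      _ ≤ (r * al n + be (n + 1)) / ‖ζ‖ := div_le_div_of_nonneg_right h3 hz0.le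
      _ = _ := by ring
  set M : ℝ := ∑' n, be n with hM
  have hbsum : ∀ N, ∑ n ∈ Finset.range N, be n ≤ M := fun N =>
    hB.sum_le_tsum _ fun n _ => hbe0 n
  have hbound : ∀ N, (1 - θ) * ∑ n ∈ Finset.range N, al n ≤ al 0 + M / ‖ζ‖ := by
    intro N
    have h1 : ∑ n ∈ Finset.range (N + 1), al n ≤
        al 0 + θ * ∑ n ∈ Finset.range N, al n + M / ‖ζ‖ := by
      rw [Finset.sum_range_succ']
      have h2 : ∑ n ∈ Finset.range N, al (n + 1) ≤
          ∑ n ∈ Finset.range N, (θ * al n + be (n + 1) / ‖ζ‖) :=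
        Finset.sum_le_sum fun n _ => hstep n
      rw [Finset.sum_add_distrib, ← Finset.mul_sum, ← Finset.sum_div] at h2
      have h3 : ∑ n ∈ Finset.range N, be (n + 1) ≤ M := by
        have h4 := hbsum (N + 1)
        rw [Finset.sum_range_succ'] at h4
        have := hbe0 0
        linarith
      have h5 : (∑ n ∈ Finset.range N, be (n + 1)) / ‖ζ‖ ≤ M / ‖ζ‖ :=
        div_le_div_of_nonneg_right h3 hz0.le
      linarith
    have h2 : ∑ n ∈ Finset.range N, al n ≤ ∑ n ∈ Finset.range (N + 1), al n := by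
      rw [Finset.sum_range_succ]
      have := hal0 N
      linarith
    linarith
  refine summable_of_sum_range_le (c := (al 0 + M / ‖ζ‖) / (1 - θ)) hal0 fun N => ?_
  rw [le_div_iff₀ (by linarith), mul_comm]
  exact hbound N

/-- division by a polynomial without zeros in the closed disc -/
theorem Sm_of_roots {A B : PowerSeries ℂ} {r : ℝ} (hr : 0 < r) (s : Multiset ℂ)
    (hs : ∀ ζ ∈ s, r < ‖ζ‖)
    (h : (((s.map fun ζ => (X - C ζ : ℂ[X])).prod : ℂ[X]) : PowerSeries ℂ) * A = B)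
    (hB : Sm B r) : Sm A r := by
  induction s using Multiset.induction_on generalizing B with
  | empty =>
    simp only [Multiset.map_zero, Multiset.prod_zero, Polynomial.coe_one, one_mul] at h
    rw [h]
    exact hB
  | cons ζ s ih =>
    rw [Multiset.map_cons, Multiset.prod_cons, Polynomial.coe_mul, mul_assoc] at h
    refine ih (fun z hz => hs z (Multiset.mem_cons_of_mem hz)) rfl ?_
    refine Sm_of_mul hr (hs ζ (Multiset.mem_cons_self ζ s)) ?_ hB
    rw [← h]
    simp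

/-- The generating function of fixed polyominoes, over `ℂ`. -/
noncomputable def TC : PowerSeries ℂ := PowerSeries.mk fun n => (t n : ℂ)

theorem Sm_TC {r : ℝ} (hr : 0 ≤ r) (hr1 : r < lam⁻¹) : Sm TC r := by
  have hl := lam_pos
  refine Summable.of_nonneg_of_le (fun n => mul_nonneg (norm_nonneg _) (pow_nonneg hr n))
    (fun n => ?_) (summable_geometric_of_lt_one (r := lam * r) (by positivity) ?_)
  · rw [TC, PowerSeries.coeff_mk, Complex.norm_natCast, mul_pow]
    exact mul_le_mul_of_nonneg_right (t_le_lam n) (pow_nonneg hr n)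
  · calc lam * r < lam * lam⁻¹ := mul_lt_mul_of_pos_left hr1 hl
      _ = 1 := mul_inv_cancel₀ hl.ne'

theorem not_Sm_TC {r : ℝ} (hr1 : lam⁻¹ < r) : ¬ Sm TC r := by
  intro h
  have hl := lam_pos
  have hr : 0 < r := (inv_pos.2 hl).trans hr1
  have h1 : Tendsto (fun n : ℕ => ‖PowerSeries.coeff n TC‖ * r ^ n) atTop (𝓝 0) :=
    h.tendsto_atTop_zero
  have h2 : ∀ᶠ n : ℕ in atTop, (t n : ℝ) ^ ((1 : ℝ) / n) ≤ r⁻¹ := by
    filter_upwards [h1.eventually (gt_mem_nhds zero_lt_one), eventually_gt_atTop 0] with n hn hn0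
    rw [TC, PowerSeries.coeff_mk, Complex.norm_natCast] at hn
    have h3 : (t n : ℝ) ≤ (r⁻¹) ^ n := by
      rw [inv_pow, ← one_div, le_div_iff₀ (by positivity)]
      exact hn.le
    calc (t n : ℝ) ^ ((1 : ℝ) / n) ≤ ((r⁻¹) ^ n) ^ ((1 : ℝ) / n) :=
          Real.rpow_le_rpow (by positivity) h3 (by positivity)
      _ = r⁻¹ := by
          rw [← Real.rpow_natCast, ← Real.rpow_mul (by positivity), mul_one_div_cancel (by
            exact_mod_cast hn0.ne'), Real.rpow_one]
  have h3 := le_of_tendsto tendsto_lam h2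
  have h4 : r⁻¹ < lam := by
    rw [inv_lt_comm₀ hr hl]
    exact hr1
  linarith

theorem Sm_mono {A : PowerSeries ℂ} {r r' : ℝ} (hr : 0 ≤ r') (h : r' ≤ r) (hA : Sm A r) :
    Sm A r' :=
  Summable.of_nonneg_of_le (fun n => mul_nonneg (norm_nonneg _) (pow_nonneg hr n))
    (fun n => mul_le_mul_of_nonneg_left (pow_le_pow_left₀ hr h n) (norm_nonneg _)) hA

/-- division by `X - ζ` inside the disc of convergence -/
theorem Sm_of_mul_root {A B : PowerSeries ℂ} {ζ : ℂ} {r : ℝ} (hr : 0 < r) (hζ : ‖ζ‖ < r)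
    (h : (PowerSeries.X - PowerSeries.C ζ) * A = B) (hB : Sm B r) (h0 : ev B ζ = 0) : Sm A r := by
  set θ : ℝ := ‖ζ‖ / r with hθ
  have hθ0 : 0 ≤ θ := div_nonneg (norm_nonneg _) hr.le
  have hθ1 : θ < 1 := (div_lt_one hr).2 hζ
  set be : ℕ → ℝ := fun n => ‖PowerSeries.coeff n B‖ * r ^ n with hbe
  have hbe0 : ∀ n, 0 ≤ be n := fun n => mul_nonneg (norm_nonneg _) (pow_nonneg hr.le _)
  have hbz : ∀ n, ‖PowerSeries.coeff n B * ζ ^ n‖ ≤ be n := by
    intro n
    rw [norm_mul, norm_pow]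
    exact mul_le_mul_of_nonneg_left (pow_le_pow_left₀ (norm_nonneg _) hζ.le n) (norm_nonneg _)
  set M : ℝ := ∑' n, be n with hM
  -- terms
  have hterm : ∀ n k, ‖PowerSeries.coeff (n + 1 + k) B * ζ ^ k‖ * r ^ n =
      be (n + 1 + k) * θ ^ k / r := by
    intro n k
    rw [norm_mul, norm_pow, hbe, hθ, div_pow]
    simp only
    have : r ^ (n + 1 + k) = r ^ n * r * r ^ k := by ring
    rw [this]
    field_simp
  have hbeM : ∀ n, be n ≤ M := fun n => hB.le_tsum n fun m _ => hbe0 m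
  have hs1 : ∀ n, Summable fun k => ‖PowerSeries.coeff (n + 1 + k) B * ζ ^ k‖ := by
    intro n
    have h1 : Summable fun k => be (n + 1 + k) * θ ^ k / r := by
      refine Summable.of_nonneg_of_le (fun k => by have := hbe0 (n + 1 + k); positivity)
        (fun k => ?_) (((summable_geometric_of_lt_one hθ0 hθ1).mul_left M).div_const r)
      exact div_le_div_of_nonneg_right
        (mul_le_mul_of_nonneg_right (hbeM _) (pow_nonneg hθ0 _)) hr.le
    have h2 : Summable fun k => ‖PowerSeries.coeff (n + 1 + k) B * ζ ^ k‖ * r ^ n :=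
      h1.congr fun k => (hterm n k).symm
    exact (summable_mul_right_iff (pow_pos hr n).ne').1 h2
  set A' : PowerSeries ℂ := PowerSeries.mk fun n => ∑' k, PowerSeries.coeff (n + 1 + k) B * ζ ^ k
    with hA'
  have hAA : A = A' := by
    have hne : (PowerSeries.X - PowerSeries.C ζ : PowerSeries ℂ) ≠ 0 := by
      intro h1
      have h2 := congrArg (PowerSeries.coeff 1) h1
      rw [map_sub, PowerSeries.coeff_one_X, PowerSeries.coeff_C] at h2
      simp at h2
    apply mul_left_cancel₀ hne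
    rw [h]
    ext n
    rcases n with _ | n
    · rw [sub_mul, map_sub, PowerSeries.coeff_zero_X_mul, PowerSeries.coeff_C_mul, hA',
        PowerSeries.coeff_mk, zero_sub]
      have h1 : Summable fun k => PowerSeries.coeff k B * ζ ^ k :=
        Summable.of_norm (Summable.of_nonneg_of_le (fun _ => norm_nonneg _) hbz hB)
      have h2 := h1.sum_add_tsum_nat_add 1
      rw [Finset.sum_range_one, pow_zero, mul_one] at h2
      have h3 : ∑' k, PowerSeries.coeff k B * ζ ^ k = 0 := h0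
      rw [h3] at h2
      rw [← tsum_mul_left]
      have h4 : ∀ k, ζ * (PowerSeries.coeff (0 + 1 + k) B * ζ ^ k) =
          PowerSeries.coeff (k + 1) B * ζ ^ (k + 1) := by
        intro k
        rw [show 0 + 1 + k = k + 1 by ring]
        ring
      rw [tsum_congr h4]
      linear_combination h2
    · rw [sub_mul, map_sub, PowerSeries.coeff_succ_X_mul, PowerSeries.coeff_C_mul, hA',
        PowerSeries.coeff_mk, PowerSeries.coeff_mk]
      have h1 : Summable fun k => PowerSeries.coeff (n + 1 + k) B * ζ ^ k := (hs1 n).of_norm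
      have h2 := h1.sum_add_tsum_nat_add 1
      rw [Finset.sum_range_one, pow_zero, mul_one, add_zero] at h2
      rw [← h2, ← tsum_mul_left]
      have h4 : ∀ k, ζ * (PowerSeries.coeff (n + 1 + 1 + k) B * ζ ^ k) =
          PowerSeries.coeff (n + 1 + (k + 1)) B * ζ ^ (k + 1) := by
        intro k
        rw [show n + 1 + 1 + k = n + 1 + (k + 1) by ring]
        ring
      rw [tsum_congr h4]
      ring
  rw [hAA]
  have hco : ∀ n, ‖PowerSeries.coeff n A'‖ * r ^ n ≤ ∑' k, be (n + 1 + k) * θ ^ k / r := by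
    intro n
    rw [hA', PowerSeries.coeff_mk]
    calc ‖∑' k, PowerSeries.coeff (n + 1 + k) B * ζ ^ k‖ * r ^ n
        ≤ (∑' k, ‖PowerSeries.coeff (n + 1 + k) B * ζ ^ k‖) * r ^ n :=
          mul_le_mul_of_nonneg_right (norm_tsum_le_tsum_norm (hs1 n)) (pow_nonneg hr.le n)
      _ = ∑' k, ‖PowerSeries.coeff (n + 1 + k) B * ζ ^ k‖ * r ^ n := by rw [tsum_mul_right]
      _ = ∑' k, be (n + 1 + k) * θ ^ k / r := tsum_congr (hterm n)
  have hs2 : ∀ n, Summable fun k => be (n + 1 + k) * θ ^ k / r := by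
    intro n
    exact ((hs1 n).mul_right (r ^ n)).congr fun k => hterm n k
  refine summable_of_sum_range_le (c := M / (1 - θ) / r)
    (fun n => mul_nonneg (norm_nonneg _) (pow_nonneg hr.le _)) fun N => ?_
  calc ∑ n ∈ Finset.range N, ‖PowerSeries.coeff n A'‖ * r ^ n
      ≤ ∑ n ∈ Finset.range N, ∑' k, be (n + 1 + k) * θ ^ k / r :=
        Finset.sum_le_sum fun n _ => hco n
    _ = ∑' k, ∑ n ∈ Finset.range N, be (n + 1 + k) * θ ^ k / r :=
        (Summable.tsum_finsetSum fun n _ => hs2 n).symm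
    _ ≤ ∑' k, M * θ ^ k / r := by
        refine Summable.tsum_le_tsum (fun k => ?_) (summable_sum fun n _ => hs2 n)
          (((summable_geometric_of_lt_one hθ0 hθ1).mul_left M).div_const r)
        rw [← Finset.sum_div, ← Finset.sum_mul]
        refine div_le_div_of_nonneg_right (mul_le_mul_of_nonneg_right ?_ (pow_nonneg hθ0 _)) hr.le
        have h1 : Function.Injective fun n : ℕ => n + 1 + k := fun a b hab => by
          simp only at hab
          omega
        rw [← Finset.sum_image (s := Finset.range N) (g := fun n => n + 1 + k) (f := be)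
          (fun a _ b _ hab => h1 hab)]
        exact hB.sum_le_tsum _ fun n _ => hbe0 n
    _ = M / (1 - θ) / r := by
        rw [tsum_div_const, tsum_mul_left, tsum_geometric_of_lt_one hθ0 hθ1]
        ring

/-- the key step: a zero of `Q` in the closed disc of convergence of `T` is a zero of `Q T` -/
theorem root_step {B : PowerSeries ℂ} {Q : ℂ[X]} {r : ℝ} (hr1 : lam⁻¹ < r) (hB : Sm B r)
    (h : (Q : PowerSeries ℂ) * TC = B) {ζ : ℂ} (hζ : Q.eval ζ = 0)
    (hR : ‖ζ‖ ≤ lam⁻¹) : ev B ζ = 0 := by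
  have hl := lam_pos
  rcases lt_or_eq_of_le hR with h1 | h1
  · have h2 := ev_mul (Sm_poly Q ‖ζ‖) (Sm_TC (norm_nonneg ζ) h1)
    rw [h, ev_poly, hζ, zero_mul] at h2
    exact h2
  · obtain ⟨Q1, hQ1⟩ := Polynomial.dvd_iff_isRoot.2 hζ
    -- a bound for `Q1` on the segment
    have hcont : Continuous fun x : ℝ => Q1.eval (ζ * (x : ℂ)) :=
      Q1.continuous.comp (continuous_const.mul Complex.continuous_ofReal)
    obtain ⟨M, hM⟩ := (isCompact_Icc (a := (0 : ℝ)) (b := 1)).exists_bound_of_continuousOn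
      hcont.continuousOn
    have hM0 : 0 ≤ M := (norm_nonneg _).trans (hM 0 ⟨le_refl _, zero_le_one⟩)
    set c : ℕ → ℝ := fun n => (t n : ℝ) / lam ^ n with hc
    have hc0 : ∀ n, 0 ≤ c n := fun n => by positivity
    have hb : ∀ x : ℝ, 0 < x → x < 1 →
        ‖ev B (ζ * (x : ℂ))‖ ≤ lam⁻¹ * M * ((1 - x) * ∑' n, c n * x ^ n) := by
      intro x hx0 hx1
      have hz : ‖ζ * (x : ℂ)‖ = lam⁻¹ * x := by
        rw [norm_mul, h1, Complex.norm_real, Real.norm_of_nonneg hx0.le]
      have hzlt : ‖ζ * (x : ℂ)‖ < lam⁻¹ := by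
        rw [hz]
        have := inv_pos.2 hl
        nlinarith
      have h2 := ev_mul (Sm_poly Q ‖ζ * (x : ℂ)‖) (Sm_TC (norm_nonneg _) hzlt)
      rw [h, ev_poly] at h2
      have h3 : ‖ev TC (ζ * (x : ℂ))‖ ≤ ∑' n, c n * x ^ n := by
        have h4 : ∀ n, ‖PowerSeries.coeff n TC * (ζ * (x : ℂ)) ^ n‖ = c n * x ^ n := by
          intro n
          rw [norm_mul, norm_pow, hz, TC, PowerSeries.coeff_mk, Complex.norm_natCast, mul_pow,
            inv_pow, hc]
          ring
        rw [ev]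
        refine (norm_tsum_le_tsum_norm ?_).trans (le_of_eq (tsum_congr h4))
        have h5 := Sm_TC (norm_nonneg _) hzlt
        refine h5.congr fun n => ?_
        rw [norm_mul (PowerSeries.coeff n TC), norm_pow]
      rw [h2, norm_mul, hQ1, Polynomial.eval_mul, norm_mul, Polynomial.eval_sub,
        Polynomial.eval_X, Polynomial.eval_C]
      have h4 : ‖ζ * (x : ℂ) - ζ‖ = lam⁻¹ * (1 - x) := by
        have h5 : ζ * (x : ℂ) - ζ = ζ * ((x - 1 : ℝ) : ℂ) := by
          push_cast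
          ring
        rw [h5, norm_mul, h1, Complex.norm_real, Real.norm_eq_abs, abs_of_neg (by linarith)]
        ring
      rw [h4]
      have h5 : ‖Q1.eval (ζ * (x : ℂ))‖ ≤ M := hM x ⟨hx0.le, hx1.le⟩
      have h6 : 0 ≤ lam⁻¹ * (1 - x) := mul_nonneg (inv_pos.2 hl).le (by linarith)
      calc lam⁻¹ * (1 - x) * ‖Q1.eval (ζ * (x : ℂ))‖ * ‖ev TC (ζ * (x : ℂ))‖
          ≤ lam⁻¹ * (1 - x) * M * ∑' n, c n * x ^ n := by
            refine mul_le_mul (mul_le_mul_of_nonneg_left h5 h6) h3 (norm_nonneg _)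
              (mul_nonneg h6 hM0)
        _ = _ := by ring
    -- the limit
    by_contra hP
    have hP0 : 0 < ‖ev B ζ‖ := norm_pos_iff.2 hP
    set ε : ℝ := ‖ev B ζ‖ / (2 * (lam⁻¹ * M + 1)) with hε
    have hD : 0 < lam⁻¹ * M + 1 := by positivity
    have hε0 : 0 < ε := by positivity
    have h2 := abel_lim hc0 tendsto_c hε0
    have h3 : ∀ᶠ x : ℝ in 𝓝[<] 1, 0 < x :=
      eventually_nhdsWithin_of_eventually_nhds (lt_mem_nhds zero_lt_one)
    have h4 : ∀ᶠ x : ℝ in 𝓝[<] 1, ‖ev B (ζ * (x : ℂ))‖ ≤ ‖ev B ζ‖ / 2 := by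
      filter_upwards [h2, h3, self_mem_nhdsWithin] with x hx1 hx2 hx3
      calc ‖ev B (ζ * (x : ℂ))‖ ≤ lam⁻¹ * M * ((1 - x) * ∑' n, c n * x ^ n) :=
            hb x hx2 hx3
        _ ≤ lam⁻¹ * M * ε := mul_le_mul_of_nonneg_left hx1 (by positivity)
        _ ≤ (lam⁻¹ * M + 1) * ε := by nlinarith
        _ = ‖ev B ζ‖ / 2 := by
            rw [hε]
            field_simp
    have h5 : Tendsto (fun x : ℝ => ‖ev B (ζ * (x : ℂ))‖) (𝓝[<] 1) (𝓝 ‖ev B ζ‖) := by
      have hBR : Sm B lam⁻¹ := Sm_mono (inv_pos.2 hl).le hr1.le hB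
      have h6 : ContinuousOn (fun x : ℝ => ev B (ζ * (x : ℂ))) (Set.Icc 0 1) := by
        refine continuousOn_tsum (fun n => ?_) hBR fun n x hx => ?_
        · exact (continuous_const.mul
            ((continuous_const.mul Complex.continuous_ofReal).pow n)).continuousOn
        · rw [norm_mul, norm_pow, norm_mul, h1, Complex.norm_real, Real.norm_of_nonneg hx.1]
          refine mul_le_mul_of_nonneg_left (pow_le_pow_left₀ (by
            have := inv_pos.2 hl
            exact mul_nonneg this.le hx.1) ?_ n) (norm_nonneg _)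
          calc lam⁻¹ * x ≤ lam⁻¹ * 1 := mul_le_mul_of_nonneg_left hx.2 (inv_pos.2 hl).le
            _ = lam⁻¹ := mul_one _
      have h7 : Tendsto (fun x : ℝ => ev B (ζ * (x : ℂ))) (𝓝[Set.Icc 0 1] 1)
          (𝓝 (ev B (ζ * ((1 : ℝ) : ℂ)))) := h6 1 ⟨zero_le_one, le_refl _⟩
      rw [Complex.ofReal_one, mul_one] at h7
      have h8 : (𝓝[<] (1 : ℝ)) ≤ 𝓝[Set.Icc 0 1] 1 := by
        refine nhdsWithin_le_of_mem ?_
        filter_upwards [h3, self_mem_nhdsWithin] with x hx1 hx2
        exact ⟨hx1.le, (show x < 1 from hx2).le⟩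
      exact (h7.mono_left h8).norm
    have h6 := le_of_tendsto h5 h4
    linarith

/-- **`T` is not meromorphic in a disc larger than its disc of convergence.** -/
theorem not_merom (Q : ℂ[X]) (hQ : Q ≠ 0) {r : ℝ} (hr1 : lam⁻¹ < r) :
    ¬ Sm ((Q : PowerSeries ℂ) * TC) r := by
  have hr : 0 < r := (inv_pos.2 lam_pos).trans hr1
  induction hd : Q.natDegree using Nat.strong_induction_on generalizing Q with
  | _ d ih =>
    intro h
    by_cases hroot : ∃ ζ, Q.eval ζ = 0 ∧ ‖ζ‖ ≤ lam⁻¹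
    · obtain ⟨ζ, h1, h2⟩ := hroot
      have h3 := root_step hr1 h rfl h1 h2
      obtain ⟨Q1, hQ1⟩ := Polynomial.dvd_iff_isRoot.2 h1
      have hQ1' : Q1 ≠ 0 := by
        rintro rfl
        rw [mul_zero] at hQ1
        exact hQ hQ1
      have hdeg : Q1.natDegree < d := by
        rw [← hd, hQ1, Polynomial.natDegree_mul (Polynomial.X_sub_C_ne_zero ζ) hQ1',
          Polynomial.natDegree_X_sub_C]
        omega
      refine ih _ hdeg Q1 hQ1' rfl ?_
      refine Sm_of_mul_root hr (lt_of_le_of_lt h2 hr1) ?_ h h3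
      rw [hQ1, Polynomial.coe_mul, mul_assoc]
      simp
    · push Not at hroot
      have h1 : ∀ᶠ r : ℝ in 𝓝[>] lam⁻¹, ∀ ζ ∈ Q.roots.toFinset, r < ‖ζ‖ := by
        rw [Filter.eventually_all_finset]
        intro ζ hζ
        rw [Multiset.mem_toFinset, Polynomial.mem_roots hQ] at hζ
        exact eventually_nhdsWithin_of_eventually_nhds (gt_mem_nhds (hroot ζ hζ))
      have h1' : ∀ᶠ r' : ℝ in 𝓝[>] lam⁻¹, r' < r :=
        eventually_nhdsWithin_of_eventually_nhds (gt_mem_nhds hr1)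
      obtain ⟨r', ⟨h2, h2'⟩, h3⟩ := ((h1.and h1').and self_mem_nhdsWithin).exists
      have h3 : lam⁻¹ < r' := h3
      have hr' : 0 < r' := (inv_pos.2 lam_pos).trans h3
      refine not_Sm_TC h3 ?_
      have h4 : C Q.leadingCoeff * (Q.roots.map fun a => X - C a).prod = Q :=
        Polynomial.C_leadingCoeff_mul_prod_multiset_X_sub_C
          IsAlgClosed.card_roots_eq_natDegree
      have hlc : Q.leadingCoeff ≠ 0 := Polynomial.leadingCoeff_ne_zero.2 hQ
      have h5 : (Q.roots.map fun ζ => (X - C ζ : ℂ[X])).prod = C Q.leadingCoeff⁻¹ * Q := by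
        have h6 : C Q.leadingCoeff⁻¹ * (C Q.leadingCoeff * (Q.roots.map fun a => X - C a).prod) =
            C Q.leadingCoeff⁻¹ * Q := by rw [h4]
        rw [← mul_assoc, ← Polynomial.C_mul, inv_mul_cancel₀ hlc, Polynomial.C_1, one_mul] at h6
        exact h6
      refine Sm_of_roots hr' Q.roots (fun ζ hζ => h2 ζ (Multiset.mem_toFinset.2 hζ))
        (B := PowerSeries.C Q.leadingCoeff⁻¹ * ((Q : PowerSeries ℂ) * TC)) ?_ ?_
      · rw [h5, Polynomial.coe_mul, Polynomial.coe_C, mul_assoc]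
      · have h6 := (Sm_mono hr'.le h2'.le h).mul_left ‖Q.leadingCoeff⁻¹‖
        refine h6.congr fun n => ?_
        rw [PowerSeries.coeff_C_mul, norm_mul, mul_assoc]

/-- **The generating function is not a quotient of complex polynomials.** -/
theorem not_rational_C (P Q : ℂ[X]) (hQ : Q ≠ 0) : (Q : PowerSeries ℂ) * TC ≠ P := by
  intro h
  have h1 : lam⁻¹ < lam⁻¹ + 1 := by linarith
  refine not_merom Q hQ h1 ?_
  rw [h]
  exact Sm_poly P _

/-- **The generating function is not a quotient of rational polynomials.** -/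
theorem not_rational_Q (P Q : ℚ[X]) (hQ : Q ≠ 0) :
    (Q : PowerSeries ℚ) * PowerSeries.mk (fun n => (t n : ℚ)) ≠ P := by
  intro h
  have hQ' : Q.map (algebraMap ℚ ℂ) ≠ 0 := by
    rw [Ne, Polynomial.map_eq_zero]
    exact hQ
  refine not_rational_C (P.map (algebraMap ℚ ℂ)) (Q.map (algebraMap ℚ ℂ)) hQ' ?_
  have h1 := congrArg (PowerSeries.map (algebraMap ℚ ℂ)) h
  rw [map_mul] at h1
  have h2 : PowerSeries.map (algebraMap ℚ ℂ) (PowerSeries.mk fun n => (t n : ℚ)) = TC := by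
    ext n
    rw [PowerSeries.coeff_map, PowerSeries.coeff_mk, TC, PowerSeries.coeff_mk]
    simp
  rw [h2, ← Polynomial.polynomial_map_coe, ← Polynomial.polynomial_map_coe] at h1
  exact h1

end Pool.Agent.N721.Poly
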